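import Pool.Agent.Helper25_CON.Stmts

/-!
Squad CON (MP_6d18f4_al), modules C_HOR and C_RTG: mirrors near a cusp, root generation at a cusp.
-/

noncomputable section

namespace Pool.Agent.CON.H94

open Pool.Agent.CON Pool.Agent.H25Cong

/-- **C_HOR** -/
theorem c_HOR : C_HOR := by
  intro n e v a m K he hm hv hK hev haa haK hint hav hav'
  rcases hint with h0 | h1
  · exact h0
  exfalso
  have hae : B a e ≠ 0 := by
    intro h; rw [h] at h1; norm_num at h1
  have hmm : 0 ≤ B m m := by
    by_contra hcon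
    rw [not_le] at hcon
    have : e = 0 := perp_eq_zero hcon (by rw [B_comm]; exact hm) he
    apply hae
    rw [this, B_zero_right]
  obtain ⟨v', hv'⟩ : ∃ v', v' = E e m he hm v := ⟨_, rfl⟩
  rw [← hv'] at hav'
  have hE : v' = v + B v e • m - B v m • e - (B m m / 2 * B v e) • e := hv'
  have hem : B e m = 0 := by rw [B_comm]; exact hm
  have hiso : B v' v' = B v v := by
    rw [hE]
    simp only [B_add_left, B_add_right, B_sub_left, B_sub_right, B_smul_left, B_smul_right, he,
      hm, hem, B_comm m v, B_comm e v]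
    ring
  have hvv' : B v v' = B v v - B m m / 2 * B v e ^ 2 := by
    rw [hE]
    simp only [B_add_right, B_sub_right, B_smul_right]
    ring
  have hev' : B e v' = B e v := by
    rw [hE]
    simp only [B_add_right, B_sub_right, B_smul_right, he, hem]
    ring
  obtain ⟨s, hs⟩ : ∃ s, s = B a v / (B a v - B a v') := ⟨_, rfl⟩
  have hd : 0 < B a v - B a v' := by linarith
  have hs0 : 0 < s := by rw [hs]; exact div_pos hav hd
  have hs1 : s < 1 := by
    rw [hs, div_lt_one hd]; linarith
  have hsd : s * (B a v - B a v') = B a v := by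
    rw [hs]; field_simp
  obtain ⟨x, hx⟩ : ∃ x, x = (1 - s) • v + s • v' := ⟨_, rfl⟩
  have hax : B a x = 0 := by
    rw [hx, B_add_right, B_smul_right, B_smul_right]
    linarith
  have hxx : B x x ≤ B v v := by
    rw [hx]
    simp only [B_add_left, B_add_right, B_smul_left, B_smul_right, hiso, B_comm v' v, hvv']
    have h3 : 0 ≤ s * (1 - s) * (B m m * B v e ^ 2) :=
      mul_nonneg (mul_nonneg hs0.le (by linarith)) (mul_nonneg hmm (sq_nonneg _))
    nlinarith [h3]
  have hex : B e x = B e v := by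
    rw [hx, B_add_right, B_smul_right, B_smul_right, hev']
    ring
  have hxn : B x x < 0 := lt_of_le_of_lt hxx hv
  have hcs := cs_perp hxn hax haa he
  rw [hex] at hcs
  have h4 : B a a * B e v ^ 2 ≤ K * B e v ^ 2 :=
    mul_le_mul_of_nonneg_right haK (sq_nonneg _)
  nlinarith [hcs, h4, h1, hxx, hev]

/-- reflections in roots orthogonal to `e` move vectors of `L` by sums of such roots -/
theorem move {n : ℕ} {L : Submodule ℤ (V n)} {e : V n} {g : V n ≃ₗ[ℝ] V n}
    (hg : g ∈ Subgroup.closure (S '' {b | Root L b ∧ B b e = 0})) :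
    ∀ x ∈ L, g x - x ∈ AddSubgroup.closure {a : V n | Root L a ∧ B a e = 0} := by
  have hQL : ∀ x ∈ AddSubgroup.closure {a : V n | Root L a ∧ B a e = 0}, x ∈ L := by
    intro x hx
    induction hx using AddSubgroup.closure_induction with
    | mem y hy => exact hy.1.1
    | zero => exact L.zero_mem
    | add y z _ _ h1 h2 => exact L.add_mem h1 h2
    | neg y _ h1 => exact L.neg_mem h1
  have hS : ∀ b, Root L b ∧ B b e = 0 → ∀ x ∈ L, S b x - x ∈
      AddSubgroup.closure {a : V n | Root L a ∧ B a e = 0} := by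
    intro b hb x hx
    obtain ⟨k, hk⟩ := hb.1.2.2.1 x hx
    have hbb : B b b ≠ 0 := ne_of_gt hb.1.2.1
    have h1 : S b x - x = (-k) • b := by
      rw [S_apply]
      have : 2 * B x b / B b b = k := by
        rw [B_comm x b, hk]; field_simp
      rw [this, ← Int.cast_smul_eq_zsmul ℝ]
      push_cast
      rw [neg_smul]
      abel
    rw [h1]
    have h2 : b ∈ AddSubgroup.closure {a : V n | Root L a ∧ B a e = 0} :=
      AddSubgroup.subset_closure (show b ∈ {a : V n | Root L a ∧ B a e = 0} from hb)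
    exact AddSubgroup.zsmul_mem _ h2 _
  induction hg using Subgroup.closure_induction'' with
  | mem g hg =>
    obtain ⟨b, hb, rfl⟩ := hg
    exact hS b hb
  | inv_mem g hg =>
    obtain ⟨b, hb, rfl⟩ := hg
    rw [S_inv]
    exact hS b hb
  | one =>
    intro x _
    rw [one_ap, sub_self]
    exact AddSubgroup.zero_mem _
  | mul g h _ _ hg hh =>
    intro x hx
    have h1 := hh x hx
    have h2 : h x ∈ L := by
      have := L.add_mem (hQL _ h1) hx
      rwa [sub_add_cancel] at this
    have h3 := hg _ h2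
    have h4 := AddSubgroup.add_mem _ h3 h1
    rw [mul_ap]
    rwa [sub_add_sub_cancel] at h4

/-- **C_RTG** -/
theorem c_RTG (h1 : C_INV) (h2 : C_BDD) (h3 : C_SYS) (h4 : C_OFF) (h5 : C_HOR) : C_RTG := by
  intro n L e f hn hL he hf hee hef hT m hm hme
  obtain ⟨K, hK, hKr⟩ := h2 n L hL
  have he0 : e ≠ 0 := by
    rintro rfl
    rw [B_zero_left] at hef
    norm_num at hef
  obtain ⟨v, hv, hev, hoff⟩ := h4 n L e K hn hL he0 hee hK
  have hRS := h3 n L v hL hv hoff
  have hw := hT m hm hee hme
  have hinv := h1 n _ v _ hRS hw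
  have hsub : (S '' {b | b ∈ {a | Root L a} ∧ 0 < B b v ∧ B b (E e m hee hme v) < 0}) ⊆
      S '' {b | Root L b ∧ B b e = 0} := by
    rintro _ ⟨b, ⟨hb, hb1, hb2⟩, rfl⟩
    refine ⟨b, ⟨hb, ?_⟩, rfl⟩
    refine h5 n e v b m K hee hme hv hK hev hb.2.1 (hKr b hb) ?_ hb1 hb2
    obtain ⟨k, hk⟩ := hL.int b hb.1 e he
    by_cases hk0 : k = 0
    · left; rw [hk, hk0]; simp
    · right
      rw [hk]
      have : (1 : ℤ) ≤ k ^ 2 := by
        have := sq_pos_of_ne_zero hk0
        linarith
      exact_mod_cast this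
  have hmem := Subgroup.closure_mono hsub hinv
  have hq := move hmem f hf
  refine ⟨-(E e m hee hme f - f), AddSubgroup.neg_mem _ hq, B m m / 2 - B f m, ?_⟩
  have hfe : B f e = -1 := by rw [B_comm]; exact hef
  have hEf : E e m hee hme f = f + B f e • m - B f m • e - (B m m / 2 * B f e) • e := rfl
  rw [hEf, hfe]
  ext i
  simp only [Pi.add_apply, Pi.sub_apply, Pi.neg_apply, Pi.smul_apply, smul_eq_mul]
  ring

end Pool.Agent.CON.H94
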