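import Pool.Agent.Helper25_CON.AsmFin
import Pool.Agent.Helper25_Cong.Form
import Pool.Agent.Helper63_CON.Rat

/-! # Module A_ISO (squad CON, MP_6d18f4_al) -/

set_option autoImplicit false

noncomputable section

namespace Pool.Agent.CON.H94

open Pool.Agent.H25Cong Pool.Agent.CON

variable {n : ℕ}

/-- a vector of the lattice orthogonal to e and not isotropic -/
theorem exists_m (hn : 2 ≤ n) {Λ : Submodule ℤ (V n)} {b : Module.Basis (Fin (n + 1)) ℝ (V n)}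
    {c : ℝ} (hb : ∀ i j, ∃ k : ℤ, B (b i) (b j) = c * k)
    (hΛ : Λ = Submodule.span ℤ (Set.range b)) {e : V n} (heΛ : e ∈ Λ) (he : e ≠ 0)
    (hee : B e e = 0) : ∃ m ∈ Λ, B m e = 0 ∧ B m m ≠ 0 := by
  have hbΛ : ∀ i, b i ∈ Λ := fun i => by
    rw [hΛ]
    exact Submodule.subset_span ⟨i, rfl⟩
  choose k hk using fun i => H63.val hb hΛ (hbΛ i) heΛ
  have hex : ∃ i0, (k i0 : ℝ) ≠ 0 := by
    by_contra hcon
    push Not at hcon
    apply he
    apply H63.eq_zero_of_B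
    intro x
    rw [← b.sum_repr x, B_sum_left]
    refine Finset.sum_eq_zero fun i _ => ?_
    rw [B_smul_left, hk, hcon, mul_zero, mul_zero]
  obtain ⟨i0, hi0⟩ := hex
  have hcard : 3 ≤ Fintype.card (Fin (n + 1)) := by rw [Fintype.card_fin]; omega
  obtain ⟨i1, i2, h10, h20, h12⟩ : ∃ i1 i2 : Fin (n + 1), i1 ≠ i0 ∧ i2 ≠ i0 ∧ i1 ≠ i2 := by
    have h1 : 2 ≤ (Finset.univ.erase i0).card := by
      rw [Finset.card_erase_of_mem (Finset.mem_univ _), Finset.card_univ]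
      omega
    obtain ⟨a, ha, a', ha', hne⟩ := Finset.one_lt_card.1 (by omega : 1 < (Finset.univ.erase i0).card)
    exact ⟨a, a', Finset.ne_of_mem_erase ha, Finset.ne_of_mem_erase ha', hne⟩
  have hm : ∀ i, (k i0 : ℝ) • b i - (k i : ℝ) • b i0 ∈ Λ := by
    intro i
    rw [Int.cast_smul_eq_zsmul ℝ, Int.cast_smul_eq_zsmul ℝ]
    exact Λ.sub_mem (Λ.smul_mem _ (hbΛ i)) (Λ.smul_mem _ (hbΛ i0))
  have hme : ∀ i, B ((k i0 : ℝ) • b i - (k i : ℝ) • b i0) e = 0 := by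
    intro i
    rw [B_sub_left, B_smul_left, B_smul_left, hk, hk]
    ring
  by_cases h1 : B ((k i0 : ℝ) • b i1 - (k i1 : ℝ) • b i0) ((k i0 : ℝ) • b i1 - (k i1 : ℝ) • b i0) = 0
  · refine ⟨_, hm i2, hme i2, fun h2 => ?_⟩
    obtain ⟨a1, ha1⟩ := H63.prop_iso he hee h1 (by rw [B_comm]; exact hme i1)
    obtain ⟨a2, ha2⟩ := H63.prop_iso he hee h2 (by rw [B_comm]; exact hme i2)
    have h3 : a2 • ((k i0 : ℝ) • b i1 - (k i1 : ℝ) • b i0) =
        a1 • ((k i0 : ℝ) • b i2 - (k i2 : ℝ) • b i0) := by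
      rw [ha1, ha2, smul_smul, smul_smul, mul_comm]
    have h4 := congrArg (fun z => b.repr z i1) h3
    simp only [map_smul, map_sub, Finsupp.smul_apply, Finsupp.sub_apply, smul_eq_mul,
      Module.Basis.repr_self_apply, if_pos, if_neg h12.symm, if_neg h10.symm] at h4
    have ha20 : a2 = 0 := by
      have h5 : a2 * (k i0 : ℝ) = 0 := by linarith
      rcases mul_eq_zero.1 h5 with h | h
      · exact h
      · exact absurd h hi0
    rw [ha20, zero_smul] at ha2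
    have h6 := congrArg (fun z => b.repr z i2) ha2
    simp only [map_smul, map_sub, map_zero, Finsupp.smul_apply, Finsupp.sub_apply, smul_eq_mul,
      Finsupp.zero_apply, Module.Basis.repr_self_apply, if_pos, if_neg h20.symm] at h6
    apply hi0
    linarith
  · exact ⟨_, hm i1, hme i1, h1⟩

/-- the Eichler transformation is congruent to one -/
theorem E_one_mod {Λ : Submodule ℤ (V n)} {b : Module.Basis (Fin (n + 1)) ℝ (V n)}
    {c : ℝ} (hc : 0 < c) (hb : ∀ i j, ∃ k : ℤ, B (b i) (b j) = c * k)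
    (hΛ : Λ = Submodule.span ℤ (Set.range b)) {e m : V n} (heΛ : e ∈ Λ) (hmΛ : m ∈ Λ)
    (hee : B e e = 0) (N : ℕ) (hme : B ((2 * (N : ℝ) / c) • m) e = 0) {x : V n} (hx : x ∈ Λ) :
    ∃ y ∈ Λ, E e ((2 * (N : ℝ) / c) • m) hee hme x - x = (N : ℝ) • y := by
  obtain ⟨k1, h1⟩ := H63.val hb hΛ hx heΛ
  obtain ⟨k2, h2⟩ := H63.val hb hΛ hx hmΛ
  obtain ⟨k3, h3⟩ := H63.val hb hΛ hmΛ hmΛ
  have hc' : c ≠ 0 := ne_of_gt hc
  refine ⟨(2 * k1) • m - (2 * k2) • e - (2 * N * k1 * k3) • e, ?_, ?_⟩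
  · exact Λ.sub_mem (Λ.sub_mem (Λ.smul_mem _ hmΛ) (Λ.smul_mem _ heΛ)) (Λ.smul_mem _ heΛ)
  · rw [E_apply, B_smul_right, B_smul_left, B_smul_right, h1, h2, h3,
      ← Int.cast_smul_eq_zsmul ℝ, ← Int.cast_smul_eq_zsmul ℝ, ← Int.cast_smul_eq_zsmul ℝ]
    ext i
    simp only [Pi.add_apply, Pi.sub_apply, Pi.smul_apply, smul_eq_mul]
    push_cast
    field_simp
    ring

theorem a_ISO : A_ISO := by
  intro n Γ Λ N hn hΓ hΛ hN hcom hcong γ hγ e he he0 hee
  obtain ⟨b, c, hc, hb, hspan⟩ := hΛ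
  obtain ⟨m, hm, hme, hmm⟩ := exists_m hn hb hspan he he0 hee
  have hc' : c ≠ 0 := ne_of_gt hc
  have hN' : (N : ℝ) ≠ 0 := by exact_mod_cast hN.ne'
  set t : ℝ := 2 * (N : ℝ) / c with ht
  have ht0 : t ≠ 0 := by rw [ht]; positivity
  have htm : B (t • m) e = 0 := by rw [B_smul_left, hme, mul_zero]
  have htm' : B (-(t • m)) e = 0 := by rw [B_neg_left, htm, neg_zero]
  have htm2 : B (t • (-m)) e = 0 := by rw [smul_neg]; exact htm'
  have hmem : ∀ x ∈ Λ, E e (t • m) hee htm x ∈ Λ := by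
    intro x hx
    obtain ⟨y, hy, hxy⟩ := E_one_mod hc hb hspan he hm hee N htm hx
    rw [sub_eq_iff_eq_add.1 hxy]
    exact Λ.add_mem (Sn hy N) hx
  have hmem' : ∀ x ∈ Λ, (E e (t • m) hee htm)⁻¹ x ∈ Λ := by
    intro x hx
    rw [E_inv e (t • m) hee htm htm', E_congr rfl (smul_neg t m).symm hee htm' hee htm2]
    obtain ⟨y, hy, hxy⟩ := E_one_mod hc hb hspan he (Λ.neg_mem hm) hee N htm2 hx
    rw [sub_eq_iff_eq_add.1 hxy]
    exact Λ.add_mem (Sn hy N) hx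
  have hO : E e (t • m) hee htm ∈ OLat Λ := by
    refine ⟨E_isom _ _ _ _, fun x => ⟨fun hx => ?_, hmem x⟩⟩
    have h := hmem' _ hx
    rwa [inv_ap] at h
  obtain ⟨h, hh, hsame⟩ := hcong _ hO fun x hx => E_one_mod hc hb hspan he hm hee N htm hx
  have htt : B (t • m + t • m) e = 0 := by rw [B_add_left, htm, add_zero]
  have hsq : h * h = E e (t • m + t • m) hee htt := by
    rw [← E_mul e (t • m) (t • m) hee htm htm htt]
    ext1 x
    rw [mul_ap, mul_ap]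
    rcases hsame with hs | hs
    · rw [hs, hs]
    · rw [hs, hs, map_neg, neg_neg]
  have hiso : Isom γ := gen_isom hΓ γ hγ
  have hg1 : B (γ e) (γ e) = 0 := by rw [hiso, hee]
  have hg2 : B (γ (t • m + t • m)) (γ e) = 0 := by rw [hiso, htt]
  have hgΓ : γ * (h * h) * γ⁻¹ ∈ Γ := Γ.mul_mem (Γ.mul_mem hγ (Γ.mul_mem hh hh)) (Γ.inv_mem hγ)
  rw [hsq, E_conj hiso e _ hee htt hg1 hg2] at hgΓ
  obtain ⟨k, hk0, -, hk⟩ := Subgroup.exists_pow_mem_of_relIndex_ne_zero hcom.2 hgΓ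
  have hk1 := hk.1
  have hkm : B ((k : ℝ) • γ (t • m + t • m)) (γ e) = 0 := by rw [B_smul_left, hg2, mul_zero]
  rw [E_pow (γ e) _ hg1 hg2 k hkm] at hk1
  have hk2 := hk1.2
  set M := (k : ℝ) • γ (t • m + t • m) with hM
  set G := E (γ e) M hg1 hkm with hG
  have hge : γ e ≠ 0 := fun h0 => he0 (by
    have := congrArg γ.symm h0
    rwa [LinearEquiv.symm_apply_apply, map_zero] at this)
  obtain ⟨x, hx, hxe⟩ := H63.exists_ne hspan hge
  have hMM : B M M ≠ 0 := by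
    have h1 : B M M = (k : ℝ) ^ 2 * (4 * t ^ 2 * B m m) := by
      rw [hM, B_smul_left, B_smul_right, hiso]
      simp only [B_add_left, B_add_right, B_smul_left, B_smul_right]
      ring
    rw [h1]
    have hk' : (k : ℝ) ≠ 0 := by exact_mod_cast hk0.ne'
    exact mul_ne_zero (pow_ne_zero 2 hk') (mul_ne_zero (mul_ne_zero (by norm_num)
      (pow_ne_zero 2 ht0)) hmm)
  refine ⟨-(B M M * B x (γ e)), neg_ne_zero.2 (mul_ne_zero hMM hxe), ?_⟩
  have e1 : G x ∈ Λ := (hk2 x).2 hx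
  have e2 : G (G x) ∈ Λ := (hk2 _).2 e1
  have e3 : G (G x) - (G x + G x) + x ∈ Λ :=
    Λ.add_mem (Λ.sub_mem e2 (Λ.add_mem e1 e1)) hx
  convert e3 using 1
  have hem : B (γ e) M = 0 := by rw [B_comm]; exact hkm
  rw [hG, E_apply, E_apply]
  simp only [B_add_left, B_sub_left, B_smul_left, B_smul_right, hg1, hkm, hem]
  ext i
  simp only [Pi.add_apply, Pi.sub_apply, Pi.smul_apply, Pi.neg_apply, smul_eq_mul]
  ring

end Pool.Agent.CON.H94

end
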